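import Mathlib
import Pool.Agent.Helper20.Cons.RecG

set_option autoImplicit false

/-!
# The recursion defining a sparse tally oracle, for a general local predicate

Each started code gets a mark; a code gets a second mark at the first length at which the
predicate fails.
-/

namespace Pool.Agent.Helper46.Cons

open Turing Function N487b59b3 N68a2faeb N793a5b8e Pool.Agent.Helper22 Filter Topology
open Pool.Agent.Helper20.Cons (join Tally LocConst rho pos ce rho_mono rho_add_lt_pos pos_inj
  join_congr tally_congr tally_tally exists_use st st_eq st_mono use_lt)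
open Pool.Agent.Helper20.ConsG (Local)

section

variable (G : Oracle → ℕ → ℕ → Prop) (A : Oracle) (l : ℕ → ℕ∞)

/-- the length `n` is the first one after the start at which the predicate of the code number `i`
fails -/
def Fail (X : Oracle) (i n : ℕ) : Prop := l i ≤ n ∧ ¬ G X i n ∧
  ∀ n' : ℕ, l i ≤ n' → n' < n → G X i n'

/-- the position `m` is to be put into the set, if `F` is the part of the set below `m` -/
def Cond (F : Set ℕ) (m : ℕ) : Prop :=
  (∃ i n : ℕ, m = 2 * pos i n ∧ l i = n) ∨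
  ∃ i n : ℕ, m = 2 * pos i n + 1 ∧ Fail G l (join A (tally F)) i n

/-- the part of the set below a given number -/
def pre : ℕ → Set ℕ
  | 0 => ∅
  | m + 1 => pre m ∪ {x | x = m ∧ Cond G A l (pre m) m}

/-- the set of all marks -/
def SS : Set ℕ := {m | m ∈ pre G A l (m + 1)}

variable {G A l}

theorem mem_pre {m k : ℕ} : m ∈ pre G A l k ↔ m < k ∧ m ∈ SS G A l := by
  induction k with
  | zero => simp [pre]
  | succ k ih =>
    constructor
    · intro h
      rcases h with h | ⟨rfl, h⟩
      · have := ih.1 h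
        exact ⟨by omega, this.2⟩
      · exact ⟨by omega, Or.inr ⟨rfl, h⟩⟩
    · rintro ⟨h1, h2⟩
      rcases Nat.lt_succ_iff_lt_or_eq.1 h1 with h3 | rfl
      · exact Or.inl (ih.2 ⟨h3, h2⟩)
      · exact h2

theorem good_pre (hG : Local G) {i n n' : ℕ} (h : n' ≤ n) :
    G (join A (tally (pre G A l (2 * pos i n + 1)))) i n' ↔
      G (join A (tally (SS G A l))) i n' := by
  refine hG _ _ _ _ fun u hu => join_congr (u := 2 * pos i n + 1) ?_ u ?_
  · refine tally_congr fun m hm => ?_
    rw [mem_pre]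
    exact ⟨fun h => h.2, fun h => ⟨hm, h⟩⟩
  · have h1 := rho_mono i h
    have h2 := rho_add_lt_pos i n
    omega

theorem fail_pre (hG : Local G) {i n : ℕ} :
    Fail G l (join A (tally (pre G A l (2 * pos i n + 1)))) i n ↔
      Fail G l (join A (tally (SS G A l))) i n := by
  unfold Fail
  rw [good_pre hG le_rfl]
  refine and_congr_right fun _ => and_congr_right fun _ => forall_congr' fun n' =>
    forall_congr' fun _ => ?_
  constructor
  · intro h h3
    exact (good_pre hG h3.le).1 (h h3)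
  · intro h h3
    exact (good_pre hG h3.le).2 (h h3)

theorem mem_SS (hG : Local G) {m : ℕ} : m ∈ SS G A l ↔ (∃ i n : ℕ, m = 2 * pos i n ∧ l i = n) ∨
    ∃ i n : ℕ, m = 2 * pos i n + 1 ∧ Fail G l (join A (tally (SS G A l))) i n := by
  have h1 : m ∈ SS G A l ↔ Cond G A l (pre G A l m) m := by
    constructor
    · rintro (h | ⟨-, h⟩)
      · exact absurd (mem_pre.1 h).1 (lt_irrefl _)
      · exact h
    · intro h
      exact Or.inr ⟨rfl, h⟩
  rw [h1]
  unfold Cond
  refine or_congr Iff.rfl (exists_congr fun i => exists_congr fun n => ?_)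
  constructor
  · rintro ⟨rfl, h⟩
    exact ⟨rfl, (fail_pre hG).1 h⟩
  · rintro ⟨rfl, h⟩
    exact ⟨rfl, (fail_pre hG).2 h⟩

theorem start_mem (hG : Local G) {i n : ℕ} : 2 * pos i n ∈ SS G A l ↔ l i = n := by
  rw [mem_SS hG]
  constructor
  · rintro (⟨i', n', h, h'⟩ | ⟨i', n', h, -⟩)
    · obtain ⟨rfl, rfl⟩ := pos_inj (show pos i n = pos i' n' by omega)
      exact h'
    · omega
  · intro h
    exact Or.inl ⟨i, n, rfl, h⟩

theorem kill_mem (hG : Local G) {i n : ℕ} : 2 * pos i n + 1 ∈ SS G A l ↔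
    Fail G l (join A (tally (SS G A l))) i n := by
  rw [mem_SS hG]
  constructor
  · rintro (⟨i', n', h, -⟩ | ⟨i', n', h, h'⟩)
    · omega
    · obtain ⟨rfl, rfl⟩ := pos_inj (show pos i n = pos i' n' by omega)
      exact h'
  · intro h
    exact Or.inr ⟨i, n, rfl, h⟩

/-- the marks show which codes are valid -/
theorem valid_iff (hG : Local G) {i n : ℕ} :
    ((∃ n', n' ≤ n ∧ 2 * pos i n' ∈ SS G A l) ∧ ¬ ∃ n', n' ≤ n ∧ 2 * pos i n' + 1 ∈ SS G A l) ↔
      l i ≤ n ∧ ∀ n' : ℕ, l i ≤ n' → n' ≤ n → G (join A (tally (SS G A l))) i n' := by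
  classical
  simp only [start_mem hG, kill_mem hG]
  constructor
  · rintro ⟨⟨n₀, h1, h2⟩, h3⟩
    refine ⟨by rw [h2]; exact_mod_cast h1, ?_⟩
    intro n'
    induction n' using Nat.strong_induction_on with
    | _ n' ih =>
      intro h4 h5
      by_contra h6
      exact h3 ⟨n', h5, h4, h6, fun n'' h7 h8 => ih n'' h8 h7 (by omega)⟩
  · rintro ⟨h1, h2⟩
    refine ⟨?_, ?_⟩
    · have h3 : l i ≠ ⊤ := fun h => by rw [h] at h1; simp at h1
      obtain ⟨v, hv⟩ := ENat.ne_top_iff_exists.1 h3
      refine ⟨v, ?_, hv.symm⟩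
      rw [← hv] at h1
      exact_mod_cast h1
    · rintro ⟨n', h3, h4, h5, -⟩
      exact h5 (h2 n' h4 h3)

theorem pre_agree {l' : ℕ → ℕ∞} {u : ℕ} (h : ∀ i, l i = l' i ∨ ((u : ℕ∞) < l i ∧ (u : ℕ∞) < l' i))
    {m : ℕ} (hm : m ≤ u + 1) : pre G A l m = pre G A l' m := by
  induction m with
  | zero => rfl
  | succ m ih =>
    have h1 := ih (by omega)
    have key : ∀ {l l' : ℕ → ℕ∞}, (∀ i, l i = l' i ∨ ((u : ℕ∞) < l i ∧ (u : ℕ∞) < l' i)) →
        ∀ F, Cond G A l F m → Cond G A l' F m := by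
      have big : ∀ {l : ℕ → ℕ∞} {i n : ℕ}, (u : ℕ∞) < l i → l i ≤ n → 2 * pos i n ≤ m →
          False := by
        intro l i n h5 h3 h2
        have h6 : (u : ℕ∞) < n := h5.trans_le h3
        have h7 : u < n := by exact_mod_cast h6
        have h8 := rho_add_lt_pos i n
        omega
      rintro l l' h F (⟨i, n, h2, h3⟩ | ⟨i, n, h2, h3⟩)
      · rcases h i with h5 | ⟨h5, -⟩
        · exact Or.inl ⟨i, n, h2, h5 ▸ h3⟩
        · exact (big h5 h3.le (by omega)).elim
      · rcases h i with h5 | ⟨h5, -⟩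
        · refine Or.inr ⟨i, n, h2, ?_⟩
          unfold Fail at h3 ⊢
          rw [← h5]
          exact h3
        · exact (big h5 h3.1 (by omega)).elim
    have h2 : Cond G A l (pre G A l' m) m ↔ Cond G A l' (pre G A l' m) m :=
      ⟨key h _, key (fun i => (h i).imp (fun e => e.symm) fun e => ⟨e.2, e.1⟩) _⟩
    rw [pre, pre, h1, h2]

theorem SS_agree {l' : ℕ → ℕ∞} {u : ℕ} (h : ∀ i, l i = l' i ∨ ((u : ℕ∞) < l i ∧ (u : ℕ∞) < l' i))
    {m : ℕ} (hm : m ≤ u) : m ∈ SS G A l ↔ m ∈ SS G A l' := by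
  rw [SS, SS, Set.mem_ofPred_eq, Set.mem_ofPred_eq, pre_agree h (by omega)]

/-- There are at most two marks for each started code. -/
theorem SS_card (hG : Local G) (N c : ℕ) (hc : ∀ i, l i ≤ N → i < c) :
    {m | m ∈ SS G A l ∧ m ≤ N}.encard ≤ 2 * c := by
  classical
  let X : Oracle := join A (tally (SS G A l))
  let g : ℕ × Bool → ℕ := fun p => if p.2 then 2 * pos p.1 (sInf {n | Fail G l X p.1 n}) + 1 else
    2 * pos p.1 (l p.1).toNat
  have hsub : {m | m ∈ SS G A l ∧ m ≤ N} ⊆ ((Finset.range c ×ˢ Finset.univ).image g : Finset ℕ) := by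
    rintro m ⟨hm, hmN⟩
    rw [Finset.coe_image, Set.mem_image]
    rw [mem_SS hG] at hm
    rcases hm with ⟨i, n, h1, h2⟩ | ⟨i, n, h1, h2⟩
    · refine ⟨(i, false), ?_, ?_⟩
      · rw [Finset.mem_coe, Finset.mem_product, Finset.mem_range]
        refine ⟨hc i ?_, Finset.mem_univ _⟩
        rw [h2]
        have h8 := rho_add_lt_pos i n
        exact_mod_cast (show n ≤ N by omega)
      · simp only [g, Bool.false_eq_true, if_false, h2, ENat.toNat_natCast]
        exact h1.symm
    · refine ⟨(i, true), ?_, ?_⟩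
      · rw [Finset.mem_coe, Finset.mem_product, Finset.mem_range]
        refine ⟨hc i (h2.1.trans ?_), Finset.mem_univ _⟩
        have h8 := rho_add_lt_pos i n
        exact_mod_cast (show n ≤ N by omega)
      · have h3 : sInf {n | Fail G l X i n} = n := by
          have h4 : Fail G l X i (sInf {n | Fail G l X i n}) :=
            Nat.sInf_mem (s := {n | Fail G l X i n}) ⟨n, h2⟩
          have h5 : sInf {n | Fail G l X i n} ≤ n := Nat.sInf_le (s := {n | Fail G l X i n}) h2
          by_contra h6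
          exact h4.2.1 (h2.2.2 _ h4.1 (lt_of_le_of_ne h5 h6))
        simp only [g, if_true, h3]
        exact h1.symm
  refine (Set.encard_le_encard hsub).trans ?_
  rw [Set.encard_coe_eq_coe_finsetCard]
  have h1 : ((Finset.range c ×ˢ (Finset.univ : Finset Bool)).image g).card ≤ 2 * c := by
    refine Finset.card_image_le.trans ?_
    rw [Finset.card_product, Finset.card_range, Finset.card_univ, Fintype.card_bool]
    omega
  exact_mod_cast h1

/-- if only finitely many codes are started, there are only finitely many marks -/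
theorem SS_finite (hG : Local G) {k : ℕ} (hl : ∀ i, k ≤ i → l i = ⊤) : (SS G A l).Finite := by
  have h1 : ∀ N : ℕ, {m | m ∈ SS G A l ∧ m ≤ N}.encard ≤ 2 * k := fun N =>
    SS_card hG N k fun i hi => by
      by_contra h
      rw [hl i (by omega)] at hi
      simp at hi
  by_contra hinf
  have hinf' : (SS G A l).Infinite := hinf
  obtain ⟨t, ht, htc⟩ := hinf'.exists_subset_card_eq (2 * k + 1)
  have h2 : (t : Set ℕ) ⊆ {m | m ∈ SS G A l ∧ m ≤ t.sup id} := fun m hm =>
    ⟨ht hm, Finset.le_sup (f := id) hm⟩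
  have h3 := (Set.encard_le_encard h2).trans (h1 _)
  rw [Set.encard_coe_eq_coe_finsetCard, htc] at h3
  have h4 : 2 * k + 1 ≤ 2 * k := by exact_mod_cast h3
  omega

end

/-! ## Use -/

section

variable {γ : Type} (G : Oracle → ℕ → ℕ → Prop) (A : Oracle) (Ψ : ℕ → Oracle → List Bool → γ)
  (B : ℕ → List Bool → γ)

/-- the requirement number `k` for the starting times `l` -/
def Req (k : ℕ) (l : ℕ → ℕ∞) (u : ℕ) : Prop :=
  Ψ k.unpair.1 (join A (tally (SS G A l))) ≠ B k.unpair.2 →
    ∀ Y : Oracle, (∀ w : List Bool, w.length ≤ u → Y w = join A (tally (SS G A l)) w) →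
      Ψ k.unpair.1 Y ≠ B k.unpair.2

theorem exists_req (hΨ : ∀ e, LocConst (Ψ e)) (k : ℕ) (l : ℕ → ℕ∞) :
    ∃ u, Req G A Ψ B k l u := by
  by_cases h : Ψ k.unpair.1 (join A (tally (SS G A l))) = B k.unpair.2
  · exact ⟨0, fun h' => absurd h h'⟩
  · obtain ⟨u, hu⟩ := exists_use (hΨ _) h
    exact ⟨u, fun _ => hu⟩

end

theorem tally_encard_le {S : Set ℕ} {n : ℕ} {c : ℕ∞} (h : {m | m ∈ S ∧ m ≤ n}.encard ≤ c) :
    {u : List Bool | tally S u = true ∧ u.length ≤ n}.encard ≤ c := by
  refine le_trans ?_ h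
  have h1 : {u : List Bool | tally S u = true ∧ u.length ≤ n} ⊆ un '' {m | m ∈ S ∧ m ≤ n} := by
    rintro u ⟨hu, hn⟩
    have h2 := (tally_iff S u).1 hu
    exact ⟨u.length, ⟨h2.2, hn⟩, h2.1.symm⟩
  exact (Set.encard_le_encard h1).trans (Set.encard_image_le _ _)

theorem tally_finite {S : Set ℕ} (h : S.Finite) : {u : List Bool | tally S u = true}.Finite := by
  refine (h.image un).subset fun u hu => ?_
  have h2 := (tally_iff S u).1 hu
  exact ⟨u.length, h2.2, h2.1.symm⟩

/-- The sparse tally oracle: `l` are the starting times. -/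
theorem exists_tally {G : Oracle → ℕ → ℕ → Prop} (hG : Local G) {γ : Type} (A : Oracle)
    (s : ℕ → ℕ) (hs : Tendsto s atTop atTop) (Ψ : ℕ → Oracle → List Bool → γ)
    (hΨ : ∀ e, LocConst (Ψ e)) (BB : Set (List Bool → γ)) (hBB : BB.Countable)
    (hne : BB.Nonempty) :
    ∃ (T : Oracle) (l : ℕ → ℕ), Tally T ∧
      (∀ n, {u : List Bool | T u = true ∧ u.length ≤ n}.encard ≤ s n) ∧
      (∀ i n, ((∃ n', n' ≤ n ∧ T (un (2 * pos i n')) = true) ∧
        ¬ ∃ n', n' ≤ n ∧ T (un (2 * pos i n' + 1)) = true) ↔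
          l i ≤ n ∧ ∀ n', l i ≤ n' → n' ≤ n → G (join A T) i n') ∧
      ∀ e, Ψ e (join A T) ∈ BB → ∃ Q : Oracle, Tally Q ∧ {q | Q q = true}.Finite ∧
        Ψ e (join A Q) = Ψ e (join A T) := by
  obtain ⟨B, hB⟩ := hBB.exists_eq_range hne
  choose use₀ huse₀ using exists_req G A Ψ B hΨ
  have ht : ∀ k : ℕ, ∃ t : ℕ, ∀ m, t ≤ m → 2 * (k + 1) ≤ s m := fun k =>
    eventually_atTop.1 (hs.eventually_ge_atTop (2 * (k + 1)))
  choose t ht using ht
  let use : ℕ → (ℕ → ℕ∞) → ℕ := fun k l => max (use₀ k l) (t k)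
  have huse : ∀ k l, Req G A Ψ B k l (use k l) := by
    intro k l h Y hY
    exact huse₀ k l h Y fun w hw => hY w (hw.trans (le_max_left _ _))
  set l : ℕ → ℕ := fun i => (st use (i + 1)).2 with hl
  set L : ℕ → ℕ∞ := fun i => (l i : ℕ∞) with hL
  have hlt : ∀ i, t i < l i := fun i =>
    (le_max_right _ _).trans_lt (use_lt use (k := i) (i := i) le_rfl)
  have hmem : ∀ m, tally (SS G A L) (un m) = true ↔ m ∈ SS G A L := fun m => by
    rw [tally_iff (SS G A L) (un m), un_length]
    simp only [true_and]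
  refine ⟨tally (SS G A L), l, tally_tally _, fun n => ?_, fun i n => ?_, fun e he => ?_⟩
  · refine tally_encard_le ?_
    refine (SS_card hG n (s n / 2) fun i hi => ?_).trans ?_
    · simp only [hL, Nat.cast_le] at hi
      have h1 := ht i n ((hlt i).le.trans hi)
      omega
    · have h1 : 2 * (s n / 2) ≤ s n := by omega
      exact_mod_cast h1
  · simp only [hmem]
    rw [valid_iff hG]
    simp only [hL, Nat.cast_le]
  · have he' : Ψ e (join A (tally (SS G A L))) ∈ Set.range B := hB ▸ he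
    obtain ⟨b, hb⟩ := he'
    set k := Nat.pair e b with hk
    have hk1 : k.unpair.1 = e := by rw [hk, Nat.unpair_pair]
    have hk2 : k.unpair.2 = b := by rw [hk, Nat.unpair_pair]
    set lk : ℕ → ℕ∞ := (st use k).1 with hlk
    have hagree : ∀ i, lk i = L i ∨ (((use k lk : ℕ) : ℕ∞) < lk i ∧
        ((use k lk : ℕ) : ℕ∞) < L i) := by
      intro i
      rw [hlk, st_eq]
      by_cases h : i < k
      · left
        rw [if_pos h]
      · right
        rw [if_neg h, ← hlk]
        refine ⟨ENat.natCast_lt_top _, ?_⟩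
        rw [hL]
        simp only [Nat.cast_lt]
        exact use_lt use (by omega)
    have hsame : ∀ w : List Bool, w.length ≤ use k lk → join A (tally (SS G A L)) w =
        join A (tally (SS G A lk)) w := by
      refine fun w hw => join_congr (u := use k lk) (fun v hv => ?_) w hw
      refine tally_congr (u := use k lk) (fun m hm => ?_) v hv
      exact (SS_agree hagree hm.le).symm
    have hQ : Ψ e (join A (tally (SS G A lk))) = B b := by
      by_contra hne
      have h1 := huse k lk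
      rw [Req, hk1, hk2] at h1
      exact h1 hne _ hsame hb.symm
    refine ⟨tally (SS G A lk), tally_tally _, tally_finite (SS_finite hG (k := k) fun i hi => ?_),
      by rw [hQ, hb]⟩
    rw [hlk, st_eq, if_neg (by omega)]

end Pool.Agent.Helper46.Cons
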