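import Mathlib
import Pool.Agent.Helper20.Cons.UnivG
import Pool.Agent.Helper46.Cons.RecS

set_option autoImplicit false

/-!
# The universal language of a class given by an acceptance type, relative to an oracle with the
sparse marks of the valid codes in its tally part
-/

namespace Pool.Agent.Helper46.Cons

open Turing Function N487b59b3 N68a2faeb N793a5b8e Pool.Agent.Helper22
open Pool.Agent.Helper20.Cons Pool.Agent.Helper49.Cons
open Pool.Agent.Helper22.ConsUniv (cc xx ee rr pok rr_eq)
open Pool.Agent.Helper20.ConsG (tag jg jM GG runW runW_run runB runB_run okc FP.okc' exists_const)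

/-- the bound for the code in the instance and inputs of the length of `a` -/
def rk (z a : List Bool) : List Bool := pw a (ee z) (cs (cs z)) ++ un (ee z).length

/-- a word whose length is the position for the code in the instance and the length of `a` -/
def qw (z a : List Bool) : List Bool :=
  un ((cf z ++ (rk z a ++ a)).length * (cf z ++ (rk z a ++ a)).length) ++ un (cf z).length

/-- the query for the mark: for the start if `b = false`, and for the failure if `b = true` -/
def bq (b : Bool) (z a : List Bool) : List Bool :=
  true :: (qw z a ++ (qw z a ++ (if b then [true] else [])))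

theorem FP.rk' : FP fun p : List Bool × List Bool => rk p.1 p.2 := by
  have h1 : FP fun p : List Bool × List Bool => ee p.1 := ConsUniv.FP.ee'.comp FP.fst
  unfold rk
  fun_prop

theorem FP.qw' : FP fun p : List Bool × List Bool => qw p.1 p.2 := by
  have h1 := FP.rk'
  have h : FP fun p : List Bool × List Bool => cf p.1 ++ (rk p.1 p.2 ++ p.2) := by fun_prop
  have h2 := FP.unMul h h
  unfold qw
  fun_prop

theorem FP.bq' (b : Bool) : FP fun p : List Bool × List Bool => bq b p.1 p.2 := by
  have h1 := FP.qw'
  have h2 : FP fun _ : List Bool × List Bool => (if b then [true] else [] : List Bool) :=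
    FP.const _
  unfold bq
  fun_prop

theorem rk_eq {z a : List Bool} (h : pok z = true) (ha : a.length ≤ (xx z).length) :
    rk z a = un (rho (cf z).length a.length) := by
  have h1 := (padok_iff _ _ _).1 h
  rw [rk, pw_eq, ← un_add, rho, ce, ← enumU_eq]
  congr 1
  have h2 : (cs (cs (enumU (cf z)))).length = (ee z).length := rfl
  have h3 := Nat.pow_le_pow_left ha (ee z).length
  rw [h2]
  omega

theorem bq_eq (b : Bool) {z a : List Bool} (h : pok z = true) (ha : a.length ≤ (xx z).length) :
    bq b z a = true :: un (2 * pos (cf z).length a.length + b.toNat) := by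
  have h1 : qw z a = un (pos (cf z).length a.length) := by
    rw [qw, ← un_add, List.length_append, List.length_append, rk_eq h ha, un_length, pos, sq]
  have h2 : (if b then [true] else [] : List Bool) = un b.toNat := by cases b <;> rfl
  rw [bq, h1, h2, ← un_add, ← un_add, two_mul, add_assoc]

/-- asks whether there is a mark -/
def askAny (b : Bool) : OracleProc (List Bool) Bool where
  clock := fun z => true :: xx z
  query := fun s => bq b s.1 s.2
  out := fun s => s.2.any fun c => c
  clock_poly := (isPolyTime_iff _).2 (by
    have := ConsUniv.FP.xx'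
    fun_prop)
  query_poly := (isPolyTime_iff _).2 (FP.bq' b)
  out_poly := (isPolyTime_iff _).2 (FP.any_ctx (P := fun p : List Bool × Bool => p.2) FP.snd)

theorem askAny_answers (b : Bool) (X : Oracle) {z : List Bool} (hz : pok z = true) (k : ℕ)
    (hk : k ≤ (xx z).length + 1) : ((askAny b).answers X z k).any (fun c => c) = true ↔
      ∃ n, n < k ∧ X (true :: un (2 * pos (cf z).length n + b.toNat)) = true := by
  induction k with
  | zero => simp [OracleProc.answers]
  | succ k ih =>
    have h1 : (askAny b).query (z, (askAny b).answers X z k) =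
        true :: un (2 * pos (cf z).length k + b.toNat) := by
      have h2 := OracleProc.answers_length (askAny b) X z k
      have h3 := bq_eq b (z := z) (a := (askAny b).answers X z k) hz (by omega)
      rw [h2] at h3
      exact h3
    rw [OracleProc.answers, h1, List.any_cons, Bool.or_eq_true, ih (by omega)]
    constructor
    · rintro (h | ⟨n, h2, h3⟩)
      · exact ⟨k, Nat.lt_succ_self _, h⟩
      · exact ⟨n, by omega, h3⟩
    · rintro ⟨n, h2, h3⟩
      rcases Nat.lt_succ_iff_lt_or_eq.1 h2 with h4 | rfl
      · exact Or.inr ⟨n, h4, h3⟩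
      · exact Or.inl h3

theorem askAny_run (b : Bool) (X : Oracle) {z : List Bool} (hz : pok z = true) :
    (askAny b).run X z = true ↔
      ∃ n, n ≤ (xx z).length ∧ X (true :: un (2 * pos (cf z).length n + b.toNat)) = true := by
  have h := askAny_answers b X hz ((xx z).length + 1) le_rfl
  rw [OracleProc.run]
  refine (show _ ↔ _ from h).trans (exists_congr fun n => ?_)
  rw [Nat.lt_succ_iff]

/-- asks whether the code in the instance is valid -/
theorem exists_askV : ∃ V : OracleProc (List Bool) Bool, ∀ X z,
    V.run X z = ((askAny false).run X z && !(askAny true).run X z) := by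
  obtain ⟨N, hN⟩ := exists_post
    (Pool.Agent.Helper49.Cons.pre (askAny true) (fun s : List Bool × Bool => s.1) FP.fst)
    (fun s : (List Bool × Bool) × Bool => s.1.2 && !s.2) (by fun_prop)
  obtain ⟨K, hK⟩ := exists_bind (askAny false) N
  refine ⟨K, fun X z => ?_⟩
  rw [hK, hN]
  simp only [pre_run]

/-- the condition for running the code of the instance -/
theorem exists_gU (V : OracleProc (List Bool) Bool) (t : ℕ) (m₁ m₀ : ℕ) :
    ∃ K : OracleProc (List Bool) (List Bool),
    ∀ X z, K.run X z = if z.isEmpty then un m₁ else
      if V.run X z && okc t z then cRunW (cs (cf (cc z))) (rr z) (xx z) X else un m₀ := by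
  have h1 := ConsUniv.FP.cc'
  have h2 := ConsUniv.FP.rr'
  have h3 := ConsUniv.FP.xx'
  have h4 := FP.okc' t
  obtain ⟨N, hN⟩ := exists_post
    (Pool.Agent.Helper49.Cons.pre runW (fun s : List Bool × Bool => (cs (cf (cc s.1)), (rr s.1, xx s.1)))
      (by
        have e1 : FP fun s : List Bool × Bool => cc s.1 := h1.comp FP.fst
        have e2 : FP fun s : List Bool × Bool => rr s.1 := h2.comp FP.fst
        have e3 : FP fun s : List Bool × Bool => xx s.1 := h3.comp FP.fst
        fun_prop))
    (fun s : (List Bool × Bool) × List Bool => if s.1.1.isEmpty then un m₁ else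
      if s.1.2 && okc t s.1.1 then s.2 else un m₀) (by
        have e4 : FP fun s : (List Bool × Bool) × List Bool => okc t s.1.1 :=
          h4.comp (by fun_prop)
        fun_prop)
  obtain ⟨K, hK⟩ := exists_bind V N
  refine ⟨K, fun X z => ?_⟩
  rw [hK, hN, pre_run, runW_run]

theorem exists_MU (V : OracleProc (List Bool) Bool) (t : ℕ) (f₁ f₀ : List (List Bool) → Bool)
    (h₁ : FP f₁) (h₀ : FP f₀) :
    ∃ K : OracleProc (List Bool × List (List Bool)) Bool,
    ∀ X z ws, K.run X (z, ws) = if z.isEmpty then f₁ ws else
      if V.run X z && okc t z then cRun (cf (cs (cc z))) (rr z) (cd (xx z) (lc ws)) X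
      else f₀ ws := by
  have h1 := ConsUniv.FP.cc'
  have h2 := ConsUniv.FP.rr'
  have h3 := ConsUniv.FP.xx'
  have h4 := FP.okc' t
  obtain ⟨N, hN⟩ := exists_post
    (Pool.Agent.Helper49.Cons.pre runB (fun s : (List Bool × List (List Bool)) × Bool =>
        (cf (cs (cc s.1.1)), (rr s.1.1, cd (xx s.1.1) (lc s.1.2))))
      (by
        have e1 : FP fun s : (List Bool × List (List Bool)) × Bool => cc s.1.1 :=
          h1.comp (by fun_prop)
        have e2 : FP fun s : (List Bool × List (List Bool)) × Bool => rr s.1.1 :=
          h2.comp (by fun_prop)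
        have e3 : FP fun s : (List Bool × List (List Bool)) × Bool => xx s.1.1 :=
          h3.comp (by fun_prop)
        have e4 : FP fun s : (List Bool × List (List Bool)) × Bool => lc s.1.2 :=
          FP.lc'.comp (by fun_prop)
        fun_prop))
    (fun s : ((List Bool × List (List Bool)) × Bool) × Bool => if s.1.1.1.isEmpty then f₁ s.1.1.2
      else if s.1.2 && okc t s.1.1.1 then s.2 else f₀ s.1.1.2) (by
        have e4 : FP fun s : ((List Bool × List (List Bool)) × Bool) × Bool =>
          okc t s.1.1.1 := h4.comp (by fun_prop)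
        have e5 : FP fun s : ((List Bool × List (List Bool)) × Bool) × Bool => f₁ s.1.1.2 :=
          h₁.comp (by fun_prop)
        have e6 : FP fun s : ((List Bool × List (List Bool)) × Bool) × Bool => f₀ s.1.1.2 :=
          h₀.comp (by fun_prop)
        fun_prop)
  obtain ⟨K, hK⟩ := exists_bind
    (Pool.Agent.Helper49.Cons.pre V (fun s : List Bool × List (List Bool) => s.1) FP.fst) N
  refine ⟨K, fun X z ws => ?_⟩
  rw [hK, hN]
  simp only [pre_run, runB_run]

/-- The class given by the type number `t` has a complete language, as soon as it is not empty and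
the tally part of the oracle holds the marks of the valid codes. -/
theorem univ_complete_S (Φ : ℕ → Acc) (A T : Oracle) (l : ℕ → ℕ)
    (h : ∀ i n, ((∃ n', n' ≤ n ∧ T (un (2 * pos i n')) = true) ∧
        ¬ ∃ n', n' ≤ n ∧ T (un (2 * pos i n' + 1)) = true) ↔
      l i ≤ n ∧ ∀ n', l i ≤ n' → n' ≤ n → GG Φ (join A T) i n') (t : ℕ)
    (hne : (Cls (Φ t) (join A T)).Nonempty) :
    ∃ L ∈ Cls (Φ t) (join A T), ∀ L' ∈ Cls (Φ t) (join A T), ManyOneReducible L' L := by
  classical
  set X : Oracle := join A T with hX
  have hsome : ∃ m f, (Φ t).acc m f ≠ none := by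
    obtain ⟨L, g, M, hL⟩ := hne
    exact ⟨_, _, by rw [← verdict.eq_def (Φ t) g M X [], hL]; simp⟩
  obtain ⟨m₁, f₁, hf₁, hn₁, hc₁⟩ := exists_const (Φ t) hsome true
  obtain ⟨m₀, f₀, hf₀, hn₀, hc₀⟩ := exists_const (Φ t) hsome false
  obtain ⟨V, hV⟩ := exists_askV
  obtain ⟨gU, hgU⟩ := exists_gU V t m₁ m₀
  obtain ⟨MU, hMU⟩ := exists_MU V t f₁ f₀ hf₁ hf₀
  have hbit : ∀ z, pok z = true → (V.run X z = true ↔ l (cf z).length ≤ (xx z).length ∧
      ∀ n', l (cf z).length ≤ n' → n' ≤ (xx z).length → GG Φ X (cf z).length n') := by
    intro z hz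
    rw [← h, hV, Bool.and_eq_true, Bool.not_eq_true', ← Bool.not_eq_true, askAny_run _ _ hz,
      askAny_run _ _ hz]
    rfl
  -- the verdicts
  have hv : ∀ z, verdict (Φ t) gU MU X z = if z.isEmpty then (Φ t).acc m₁ f₁ else
      if V.run X z && okc t z then cVer (Φ t) (cs (cf (cc z))) (cf (cs (cc z))) (rr z) X (xx z)
      else (Φ t).acc m₀ f₀ := by
    intro z
    rw [verdict, hgU]
    simp only [hMU]
    by_cases h1 : z.isEmpty = true
    · simp only [h1, if_true, un_length]
    · by_cases h2 : (V.run X z && okc t z) = true
      · simp only [h1, h2, if_true, Bool.false_eq_true, if_false]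
        rfl
      · simp only [h1, h2, Bool.false_eq_true, if_false, un_length]
  have hvn : ∀ z, verdict (Φ t) gU MU X z ≠ none := by
    intro z
    rw [hv]
    by_cases h1 : z.isEmpty = true
    · rw [if_pos h1]; exact hn₁
    rw [if_neg h1]
    by_cases h2 : (V.run X z && okc t z) = true
    · rw [if_pos h2]
      rw [Bool.and_eq_true, okc, Bool.and_eq_true, leneq_iff, un_length] at h2
      obtain ⟨h3, h4, h5⟩ := h2
      have h6 := (hbit z h4).1 h3
      have h7 := h6.2 _ h6.1 le_rfl (xx z) rfl
      rw [tag, jg, jM, ← enumU_eq, ← rr_eq h4] at h7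
      have h8 : (cf (cf (enumU (cf z)))).length = t := h5
      rw [h8] at h7
      exact h7
    · rw [if_neg h2]; exact hn₀
  refine ⟨fun z => (verdict (Φ t) gU MU X z).getD false, ⟨gU, MU, fun z => ?_⟩, ?_⟩
  · obtain ⟨b, hb⟩ := Option.ne_none_iff_exists'.1 (hvn z)
    simp only [hb, Option.getD_some]
  -- completeness
  rintro L' ⟨g, M, hL'⟩
  obtain ⟨jg', jM', e, hj⟩ := exists_code_verdict (Φ t) g M
  obtain ⟨i, hi⟩ := enum_surj (cd (cd (un t) jg') (cd jM' (un e)))
  have hce : ce (enum i) = e := by rw [ce, hi, cs_cd, cs_cd, un_length]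
  have hrho : ∀ n, rho i n = n ^ e + e := fun n => by rw [rho, hce]
  have htag : tag i = t := by rw [tag, hi, cf_cd, cf_cd, un_length]
  have hjg : jg i = jg' := by rw [jg, hi, cf_cd, cs_cd]
  have hjM : jM i = jM' := by rw [jM, hi, cs_cd, cf_cd]
  have hver : ∀ x : List Bool, cVer (Φ t) jg' jM' (un (rho i x.length)) X x = some (L' x) :=
    fun x => by rw [hrho, hj e le_rfl, hL']
  have hgood : ∀ n, GG Φ X i n := by
    intro n x hx
    rw [htag, hjg, hjM, ← hx, hver]
    simp
  -- the reduction
  have hfin : {x : List Bool | x.length ≤ l i ∧ L' x = true}.Finite :=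
    (List.finite_length_le Bool (l i)).subset fun x hx => hx.1
  set S : List (List Bool) := hfin.toFinset.toList with hS
  have hmem : ∀ x : List Bool, x.length ≤ l i → (wmem S x = true ↔ L' x = true) := fun x hx => by
    rw [wmem_iff, hS, Finset.mem_toList, Set.Finite.mem_toFinset, Set.mem_ofPred_eq]
    exact ⟨fun h' => h'.2, fun h' => ⟨hx, h'⟩⟩
  let P : Polynomial ℕ := Polynomial.X ^ e + Polynomial.C e
  have hP : ∀ n, P.eval n = n ^ e + e := fun n => by simp [P]
  let f : List Bool → List Bool := fun x =>
    if decide (x.length ≤ (un (l i)).length) then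
      (if wmem S x then [] else cd [] (cd [true] []))
    else cd (un i) (cd x (un (P.eval x.length)))
  have hf : FP f := by
    have h1 : FP fun x : List Bool => un (P.eval x.length) := FP.un_poly (by fun_prop) _
    show FP fun x : List Bool => if decide (x.length ≤ (un (l i)).length) then
      (if wmem S x then [] else cd [] (cd [true] []))
    else cd (un i) (cd x (un (P.eval x.length)))
    fun_prop
  refine ⟨f, (isPolyTime_iff _).2 hf, fun x => ?_⟩
  show L' x = (verdict (Φ t) gU MU X (f x)).getD false
  rw [hv]
  by_cases hx : x.length ≤ l i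
  · have hd : decide (x.length ≤ (un (l i)).length) = true := by
      rw [decide_eq_true_eq, un_length]; exact hx
    by_cases hw : wmem S x = true
    · have hfx : f x = [] := by simp only [f, hd, hw, if_true]
      have hLx := (hmem x hx).1 hw
      rw [hfx, List.isEmpty_nil, if_pos rfl, hc₁ ⟨_, _, (hL' x).trans (by rw [hLx])⟩, hLx]
      rfl
    · have hfx : f x = cd [] (cd [true] []) := by
        simp only [f, hd, if_true, hw, if_false, Bool.false_eq_true]
      have hLx : L' x = false := by
        rw [Bool.eq_false_iff]
        exact fun h' => hw ((hmem x hx).2 h')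
      have h1 : (cd [] (cd [true] [])).isEmpty = false := rfl
      have h2 : okc t (cd [] (cd [true] [])) = false := by
        have h3 : pok (cd [] (cd [true] [])) = false := by
          rw [Bool.eq_false_iff]
          intro h'
          have h2 := (padok_iff _ _ _).1 h'
          rw [show xx (cd [] (cd [true] [])) = [true] by rw [xx, cs_cd, cf_cd], cs_cd, cs_cd] at h2
          simp at h2
        rw [okc, h3, Bool.false_and]
      rw [hfx, h1, h2, Bool.and_false]
      simp only [Bool.false_eq_true, if_false]
      rw [hc₀ ⟨_, _, (hL' x).trans (by rw [hLx])⟩, hLx]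
      rfl
  · have hd : decide (x.length ≤ (un (l i)).length) = false := by
      rw [decide_eq_false_iff_not, un_length]; exact hx
    have hfx : f x = cd (un i) (cd x (un (x.length ^ e + e))) := by
      simp only [f, hd, Bool.false_eq_true, if_false, hP]
    rw [hfx]
    set z := cd (un i) (cd x (un (x.length ^ e + e))) with hz
    have hzx : xx z = x := by rw [xx, hz, cs_cd, cf_cd]
    have hzc : cf z = un i := by rw [hz, cf_cd]
    have hcc : cc z = cd (cd (un t) jg') (cd jM' (un e)) := by
      rw [cc, hzc, enumU_eq, un_length, hi]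
    have hee : ee z = un e := by rw [ee, hcc, cs_cd, cs_cd]
    have hpok : pok z = true := by
      rw [pok, padok_iff, hzx, hee, hz, cs_cd, cs_cd, un_length, un_length]
    have hokc : okc t z = true := by
      rw [okc, hpok, Bool.true_and, leneq_iff, hcc, cf_cd, cf_cd]
    have hzr : rr z = un (rho i x.length) := by rw [rr_eq hpok, hzc, hzx, un_length]
    have hne : z.isEmpty = false := by
      rw [List.isEmpty_eq_false_iff]
      intro h0
      have h1 := congrArg List.length h0
      rw [hz, cd_length] at h1
      simp at h1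
    have hb : V.run X z = true := by
      rw [hbit z hpok, hzc, hzx, un_length]
      exact ⟨by omega, fun n' _ _ => hgood n'⟩
    rw [hne, hb, hokc, hcc, cf_cd, cs_cd, cs_cd, cf_cd, hzr, hzx, hver]
    simp

end Pool.Agent.Helper46.Cons
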