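import Mathlib
import Pool.Agent.Helper20.Cons.NC
import Pool.Agent.Helper46.Cons.UnivS
import Pool.Agent.Helper8.Sip.OffAll

set_option autoImplicit false

/-!
# The sparse tally oracle for all types
-/

namespace Pool.Agent.Helper46.Cons

open Turing Function N487b59b3 N68a2faeb N793a5b8e Pool.Agent.Helper22 Filter Topology
open Pool.Agent.Helper20.Cons Pool.Agent.Helper49.Cons
open Pool.Agent.Helper20.ConsG (GG GG_local)

/-- For every oracle `A`, every function `s` tending to infinity, all countable families of
acceptance types and of locally constant operators and every countable set `BB` of values there is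
a tally oracle `T` with at most `s n` words of length at most `n`, for all `n`, such that with
`X = join A T`
* every nonempty class of the family has a complete language relative to `X`;
* an operator with a value in `BB` at `X` has the same value at `join A Q` for some finite tally
  set `Q`;
* inclusions between classes relative to `X` hold relative to `A`;
* inclusions of syntactic classes in classes relative to `A` hold relative to `X`. -/
theorem exists_tally_all_S (A : Oracle) (s : ℕ → ℕ) (hs : Tendsto s atTop atTop)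
    {ι : Type} [Countable ι] [Nonempty ι] (Φ : ι → Acc)
    {κ : Type} [Countable κ] (Ψ : κ → Oracle → List Bool → Option Bool)
    (hΨ : ∀ e, LocConst (Ψ e)) (BB : Set (List Bool → Option Bool)) (hBB : BB.Countable) :
    ∃ T : Oracle, Tally T ∧
      (∀ n, {u : List Bool | T u = true ∧ u.length ≤ n}.encard ≤ s n) ∧
      (∀ i, (Cls (Φ i) (join A T)).Nonempty →
        ∃ L ∈ Cls (Φ i) (join A T), ∀ L' ∈ Cls (Φ i) (join A T), ManyOneReducible L' L) ∧
      (∀ e, Ψ e (join A T) ∈ BB → ∃ Q : Oracle, Tally Q ∧ {q | Q q = true}.Finite ∧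
        Ψ e (join A Q) = Ψ e (join A T)) ∧
      (∀ i j, Cls (Φ i) (join A T) ⊆ Cls (Φ j) (join A T) → Cls (Φ i) A ⊆ Cls (Φ j) A) ∧
      (∀ i j, (Φ i).Syntactic → Cls (Φ i) A ⊆ Cls (Φ j) A →
        Cls (Φ i) (join A T) ⊆ Cls (Φ j) (join A T)) := by
  obtain ⟨s', hs'⟩ := exists_surjective_nat ι
  -- all operators
  let E : Type := Unit ⊕ κ ⊕ (ι × OracleProc (List Bool) (List Bool) ×
    OracleProc (List Bool × List (List Bool)) Bool)
  let Ω : E → Oracle → List Bool → Option Bool
    | .inl _ => fun _ _ => none
    | .inr (.inl e) => Ψ e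
    | .inr (.inr c) => verdict (Φ c.1) c.2.1 c.2.2
  have hΩ : ∀ e, LocConst (Ω e) := by
    rintro (_ | e | c)
    · exact fun X y => Eventually.of_forall fun _ => rfl
    · exact hΨ e
    · exact verdict_locConst _ _ _
  have hEc : Countable E := by
    have : Countable (Unit ⊕ κ ⊕ (ι × OracleProc (List Bool) (List Bool) ×
      OracleProc (List Bool × List (List Bool)) Bool)) := inferInstance
    exact this
  have hEn : Nonempty E := ⟨.inl ()⟩
  obtain ⟨t, ht⟩ := exists_surjective_nat E
  -- all values
  let BB' : Set (List Bool → Option Bool) :=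
    {fun _ => none} ∪ BB ∪ ⋃ i, (fun (L : DecisionProblem) x => some (L x)) '' Cls (Φ i) A
  have hBB' : BB'.Countable := by
    refine ((Set.countable_singleton _).union hBB).union (Set.countable_iUnion fun i => ?_)
    exact (cls_countable _ _).image _
  obtain ⟨T, l, hT, hsp, hbit, hcons⟩ := exists_tally (GG_local fun n => Φ (s' n)) A s hs
    (fun n => Ω (t n)) (fun n => hΩ _) BB' hBB' ⟨fun _ => none, Or.inl (Or.inl rfl)⟩
  have hcons' : ∀ e, Ω e (join A T) ∈ BB' → ∃ Q : Oracle, Tally Q ∧ {q | Q q = true}.Finite ∧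
      Ω e (join A Q) = Ω e (join A T) := by
    intro e he
    obtain ⟨n, rfl⟩ := ht e
    exact hcons n he
  refine ⟨T, hT, hsp, fun i hi => ?_, fun e he => hcons' (.inr (.inl e)) (Or.inl (Or.inr he)),
    fun i j h => cls_descend _ _ h fun g M L hL hLv => ?_, fun i j hi h => cls_transfer _ _ hi hT h⟩
  · obtain ⟨n, rfl⟩ := hs' i
    exact univ_complete_S (fun n => Φ (s' n)) A T l hbit n hi
  · obtain ⟨Q, -, hQ, hQ'⟩ := hcons' (.inr (.inr (j, g, M))) (by
      refine Or.inr (Set.mem_iUnion.2 ⟨i, L, hL, ?_⟩)
      exact hLv.symm)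
    exact ⟨Q, (isPolyTime_iff _).2 (Pool.Agent.Helper8.Sip.FP_of_finite hQ), hQ'⟩

end Pool.Agent.Helper46.Cons
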